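import Mathlib
import Pool.Agent.H23.RE

set_option autoImplicit false

namespace Pool.Agent.Results.MP_2976e9_lc.OppositeOrder

open Pool.Agent.H23 Pool.Agent.H23.RE Pool.Agent.H23.CTools MeasureTheory ProbabilityTheory
open scoped ENNReal NNReal

/-- The uniform Bernoulli measure on infinite binary sequences. -/
noncomputable def P : Measure (ℕ → Bool) :=
  Measure.infinitePi fun _ : ℕ => uniformOn (Set.univ : Set Bool)

/-- The cylinder of a finite binary string. -/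
def cyl (σ : List Bool) : Set (ℕ → Bool) := {ω | ∀ j < σ.length, ω j = σ.getD j false}

/-- The supremum of the values `a / (b + 1)` over the triples `(σ, a, b)` in `S` with `ω`
extending `σ`. -/
noncomputable def ev (S : List Bool × ℕ × ℕ → Prop) (ω : ℕ → Bool) : ℝ≥0∞ :=
  ⨆ p : List Bool × ℕ × ℕ, ⨆ _ : S p ∧ ω ∈ cyl p.1, (p.2.1 : ℝ≥0∞) / (p.2.2 + 1)

/-- Lower semicomputable functions. -/
def LSC (f : (ℕ → Bool) → ℝ≥0∞) : Prop := ∃ S, REPred S ∧ f = ev S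

/-- Expectation-bounded tests. -/
def ETest (f : (ℕ → Bool) → ℝ≥0∞) : Prop := LSC f ∧ ∫⁻ ω, f ω ∂P < ⊤

/-- Probability-bounded tests. -/
def PTest (f : (ℕ → Bool) → ℝ≥0∞) : Prop :=
  LSC f ∧ ∀ c : ℝ≥0, 0 < c → P {ω | (c : ℝ≥0∞) ≤ f ω} ≤ (c : ℝ≥0∞)⁻¹

/-- `t` is maximal, up to a constant factor, among the tests of class `T`. -/
def Universal (T : ((ℕ → Bool) → ℝ≥0∞) → Prop) (t : (ℕ → Bool) → ℝ≥0∞) : Prop :=
  T t ∧ ∀ f, T f → ∃ C : ℕ, ∀ ω, f ω ≤ C * t ω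

/-- Martin-Löf randomness. -/
def MLRandom (ω : ℕ → Bool) : Prop :=
  ∀ U : ℕ × List Bool → Prop, REPred U →
    (∀ n, P {x | ∃ σ, U (n, σ) ∧ x ∈ cyl σ} ≤ 2⁻¹ ^ n) → ∃ n, ∀ σ, U (n, σ) → ω ∉ cyl σ

/-- The deficiency `log₂ t ω`. -/
noncomputable def dfc (t : (ℕ → Bool) → ℝ≥0∞) (ω : ℕ → Bool) : ℝ := Real.logb 2 (t ω).toReal

instance : IsProbabilityMeasure P := by unfold P; infer_instance

theorem cyl_eq (σ : List Bool) :
    cyl σ = Set.pi (Finset.range σ.length : Set ℕ) fun j => {σ.getD j false} := by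
  ext ω; simp [cyl]

theorem P_cyl (σ : List Bool) : P (cyl σ) = 2⁻¹ ^ σ.length := by
  rw [cyl_eq, P, Measure.infinitePi_pi _ fun _ _ => measurableSet_singleton _]
  simp only [uniformOn_univ]
  simp

theorem clopen_cyl (σ : List Bool) : IsClopen (cyl σ) := by
  rw [cyl_eq]
  exact ⟨isClosed_set_pi fun _ _ => isClosed_discrete _,
    isOpen_set_pi (Finset.finite_toSet _) fun _ _ => isOpen_discrete _⟩

theorem meas_cyl (σ : List Bool) : MeasurableSet (cyl σ) := (clopen_cyl σ).isOpen.measurableSet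

theorem lt_ev {S : List Bool × ℕ × ℕ → Prop} {ω : ℕ → Bool} {x : ℝ≥0∞} :
    x < ev S ω ↔ ∃ p, S p ∧ ω ∈ cyl p.1 ∧ x < (p.2.1 : ℝ≥0∞) / (p.2.2 + 1) := by
  simp only [ev, lt_iSup_iff, exists_prop, and_assoc]

theorem le_ev {S : List Bool × ℕ × ℕ → Prop} {ω : ℕ → Bool} {σ : List Bool} {a b : ℕ}
    (h : S (σ, a, b)) (h' : ω ∈ cyl σ) : (a : ℝ≥0∞) / (b + 1) ≤ ev S ω :=
  le_iSup₂_of_le (σ, a, b) ⟨h, h'⟩ le_rfl

theorem meas_ev (S : List Bool × ℕ × ℕ → Prop) : Measurable (ev S) := by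
  refine measurable_of_Ioi fun x => ?_
  have : ev S ⁻¹' Set.Ioi x = ⋃ p : {p // S p ∧ x < (p.2.1 : ℝ≥0∞) / (p.2.2 + 1)}, cyl p.1.1 := by
    ext ω
    simp only [Set.mem_preimage, Set.mem_Ioi, lt_ev, Set.mem_iUnion, Subtype.exists, exists_prop]
    exact exists_congr fun p => by tauto
  rw [this]
  exact MeasurableSet.iUnion fun _ => meas_cyl _

theorem lt_frac (x a b : ℕ) : (x : ℝ≥0∞) < (a : ℝ≥0∞) / (b + 1) ↔ x * (b + 1) < a := by
  rw [ENNReal.lt_div_iff_mul_lt (Or.inl (by simp)) (Or.inl (by simp))]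
  exact_mod_cast Iff.rfl

def ext (m : ℕ) (σ : List Bool) : Bool :=
  (List.range σ.length).all fun j => m.testBit j == σ.getD j false

theorem ext_iff (m : ℕ) (σ : List Bool) : ext m σ = true ↔ m.testBit ∈ cyl σ := by
  simp [ext, cyl]

theorem cov_re {f : (ℕ → Bool) → ℝ≥0∞} (hf : LSC f) :
    REPred fun q : List Bool × ℕ => ∀ ω ∈ cyl q.1, (q.2 : ℝ≥0∞) < f ω := by
  obtain ⟨S, hS, rfl⟩ := hf
  have : REPred fun q : List Bool × ℕ => ∃ n, Nat.ble q.1.length n = true ∧ ∀ m < 2 ^ n,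
      ext m q.1 = true → ∃ p : List Bool × ℕ × ℕ, S p ∧ (Nat.ble p.1.length n && ext m p.1 &&
        Nat.blt (q.2 * (p.2.2 + 1)) p.2.1) = true := by
    unfold ext
    repeat' first
      | exact re_comp' hS _ (by fun_prop)
      | exact re_prim (by fun_prop)
      | apply re_ex
      | apply re_and
      | apply re_ball
      | apply re_imp
      | fun_prop
  refine this.of_eq fun ⟨σ, x⟩ => ?_
  simp only [Nat.ble_eq, Bool.and_eq_true, Nat.blt_eq, ext_iff, lt_ev, lt_frac]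
  constructor
  · rintro ⟨n, h1, h2⟩ ω hω
    have h3 : ∀ j < n, (Nat.ofBits fun i : Fin n => ω i).testBit j = ω j := fun j hj =>
      Nat.testBit_ofBits_lt _ _ hj
    obtain ⟨p, a, ⟨b, c⟩, d⟩ := h2 _ (Nat.ofBits_lt_two_pow fun i : Fin n => ω i)
      fun j hj => (h3 j (by omega)).trans (hω j hj)
    exact ⟨p, a, fun j hj => (h3 j (by omega)).symm.trans (c j hj), d⟩
  · intro h
    obtain ⟨F, hF⟩ := (clopen_cyl σ).isClosed.isCompact.elim_finite_subcover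
      (fun p : {p : List Bool × ℕ × ℕ // S p ∧ x * (p.2.2 + 1) < p.2.1} => cyl p.1.1)
      (fun _ => (clopen_cyl _).isOpen) fun ω hω => by
        obtain ⟨p, a, b, c⟩ := h ω hω
        exact Set.mem_iUnion.2 ⟨⟨p, a, c⟩, b⟩
    refine ⟨max σ.length (F.sup fun p => p.1.1.length), le_max_left _ _, fun m _ hm => ?_⟩
    obtain ⟨p, a, b⟩ := Set.mem_iUnion₂.1 (hF hm)
    exact ⟨p.1, p.2.1, ⟨(Finset.le_sup (f := fun p : {p : List Bool × ℕ × ℕ // _} =>
      p.1.1.length) a).trans (le_max_right _ _), b⟩, p.2.2⟩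

def bits (m L : ℕ) : List Bool := (List.range L).map fun j => m.testBit j

@[simp] theorem bits_length (m L : ℕ) : (bits m L).length = L := by simp [bits]

theorem mem_bits {m L : ℕ} {ω : ℕ → Bool} : ω ∈ cyl (bits m L) ↔ ∀ j < L, ω j = m.testBit j := by
  simp only [cyl, bits_length, Set.mem_ofPred_eq]
  exact forall₂_congr fun j hj => by simp [bits, hj]

theorem frac {N N' a b : ℕ} (h : N * 2 ^ a ≤ N' * 2 ^ b) :
    (N : ℝ≥0∞) * 2⁻¹ ^ b ≤ N' * 2⁻¹ ^ a := by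
  have e : ∀ n : ℕ, (2 : ℝ≥0∞) ^ n * 2⁻¹ ^ n = 1 := fun n => by
    rw [← mul_pow, ENNReal.mul_inv_cancel (by simp) (by simp), one_pow]
  have h' : (N : ℝ≥0∞) * 2 ^ a ≤ N' * 2 ^ b := by exact_mod_cast h
  calc (N : ℝ≥0∞) * 2⁻¹ ^ b = N * 2 ^ a * (2⁻¹ ^ a * 2⁻¹ ^ b) := by
        rw [mul_assoc, ← mul_assoc (2 ^ a), e, one_mul]
    _ ≤ N' * 2 ^ b * (2⁻¹ ^ a * 2⁻¹ ^ b) := by gcongr
    _ = N' * 2⁻¹ ^ a := by rw [mul_comm (2⁻¹ ^ a), mul_assoc, ← mul_assoc (2 ^ b), e, one_mul]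

theorem count_le {X : Set (ℕ → Bool)} {L t : ℕ} (ht : t ≤ 2 ^ L)
    (h : ∀ s < t, cyl (bits s L) ⊆ X) : (t : ℝ≥0∞) * 2⁻¹ ^ L ≤ P X := by
  have h1 := measure_biUnion_finset (μ := P) (s := Finset.range t) (f := fun s => cyl (bits s L))
    (fun a ha b hb hab => Set.disjoint_left.2 fun ω h1 h2 => hab (Nat.eq_of_testBit_eq fun j => by
      simp only [Finset.coe_range, Set.mem_Iio] at ha hb
      by_cases hj : j < L
      · rw [← mem_bits.1 h1 j hj, mem_bits.1 h2 j hj]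
      · have := Nat.pow_le_pow_right (show 0 < 2 by omega) (not_lt.1 hj)
        rw [Nat.testBit_lt_two_pow (by omega), Nat.testBit_lt_two_pow (by omega)]))
    fun _ _ => meas_cyl _
  simp only [P_cyl, bits_length, Finset.sum_const, Finset.card_range, nsmul_eq_mul] at h1
  rw [← h1]
  exact measure_mono (Set.iUnion₂_subset fun s hs => h s (Finset.mem_range.1 hs))

/-- Sets of measure at most `4⁻ᵃ` carry `tE`-value about `2ᵃ`. -/
theorem geo {tE : (ℕ → Bool) → ℝ≥0∞} (hE : Universal ETest tE) (U : ℕ × List Bool → Prop)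
    (hU : REPred U) (h : ∀ n, P {x | ∃ σ, U (n, σ) ∧ x ∈ cyl σ} ≤ 2⁻¹ ^ (2 * n)) (ω : ℕ → Bool)
    (hω : tE ω ≠ ⊤) : ∃ n, ∀ σ, U (n, σ) → ω ∉ cyl σ := by
  refine (hE.2 (ev fun p => ∃ n, U (n, p.1) ∧ (p.2 == (2 ^ n, 0)) = true) ⟨⟨_, by
    apply re_ex
    exact re_and (re_comp' hU _ (by fun_prop)) (re_prim (by fun_prop)), rfl⟩, ?_⟩).elim
      fun C hC => ?_
  swap
  · by_contra hn
    push Not at hn
    obtain ⟨n, h1⟩ := ENNReal.exists_nat_gt (ENNReal.mul_ne_top (ENNReal.natCast_ne_top C) hω)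
    obtain ⟨σ, h2, h3⟩ := hn n
    have := (le_ev (a := 2 ^ n) (b := 0) ⟨n, h2, by simp⟩ h3).trans (hC ω)
    have h4 : (n : ℝ≥0∞) < ((2 ^ n : ℕ) : ℝ≥0∞) := by exact_mod_cast Nat.lt_two_pow_self
    simp only [Nat.cast_zero, zero_add, div_one] at this
    exact absurd (h1.trans h4) (not_lt.2 this)
  · have hm : ∀ n, MeasurableSet {x | ∃ σ, U (n, σ) ∧ x ∈ cyl σ} := fun n => by
      have : {x | ∃ σ, U (n, σ) ∧ x ∈ cyl σ} = ⋃ σ : {σ // U (n, σ)}, cyl σ.1 := by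
        ext; simp
      rw [this]
      exact MeasurableSet.iUnion fun _ => meas_cyl _
    calc _ ≤ ∫⁻ x, ∑' n : ℕ, {x | ∃ σ, U (n, σ) ∧ x ∈ cyl σ}.indicator
          (fun _ => ((2 ^ n : ℕ) : ℝ≥0∞)) x ∂P := by
          refine lintegral_mono fun x => iSup₂_le ?_
          rintro ⟨σ, a, b⟩ ⟨⟨n, h1, h2⟩, h3⟩
          obtain ⟨rfl, rfl⟩ : a = 2 ^ n ∧ b = 0 := by simpa using h2
          refine le_trans ?_ (ENNReal.le_tsum n)
          rw [Set.indicator_of_mem (show x ∈ {x | ∃ σ, U (n, σ) ∧ x ∈ cyl σ} from ⟨σ, h1, h3⟩)]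
          simp
      _ = ∑' n : ℕ, ((2 ^ n : ℕ) : ℝ≥0∞) * P {x | ∃ σ, U (n, σ) ∧ x ∈ cyl σ} := by
          rw [lintegral_tsum fun n => (measurable_const.indicator (hm n)).aemeasurable]
          exact tsum_congr fun n => lintegral_indicator_const (hm n) _
      _ ≤ ∑' n : ℕ, (2 : ℝ≥0∞)⁻¹ ^ n := ENNReal.tsum_le_tsum fun n =>
          (mul_le_mul_right (h n) _).trans ((frac (N' := 1) (a := n)
            (by rw [← pow_add, two_mul, one_mul])).trans (by simp))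
      _ < ⊤ := by simp

theorem random_of {tE : (ℕ → Bool) → ℝ≥0∞} (hE : Universal ETest tE) (ω : ℕ → Bool)
    (hω : tE ω ≠ ⊤) : MLRandom ω := fun U hU h =>
  let ⟨n, hn⟩ := geo hE (fun p => U (2 * p.1, p.2)) (re_comp' hU _ (by fun_prop))
    (fun n => h (2 * n)) ω hω
  ⟨2 * n, hn⟩

theorem finP {tE tP : (ℕ → Bool) → ℝ≥0∞} (hE : Universal ETest tE) (hP : PTest tP)
    (ω : ℕ → Bool) (hω : tE ω ≠ ⊤) : tP ω ≠ ⊤ := by
  obtain ⟨n, hn⟩ := geo hE (fun p => ∀ x ∈ cyl p.2, ((2 ^ (2 * p.1) : ℕ) : ℝ≥0∞) < tP x)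
    (re_comp' (cov_re hP.1) (fun p : ℕ × List Bool => (p.2, 2 ^ (2 * p.1))) (by fun_prop))
    (fun n => (measure_mono (by rintro x ⟨σ, a, b⟩; simpa using (a x b).le)).trans
      ((hP.2 (2 ^ (2 * n)) (by positivity)).trans (by simp [ENNReal.inv_pow]))) ω hω
  intro e
  obtain ⟨S, _, rfl⟩ := hP.1
  obtain ⟨p, a, b, c⟩ := lt_ev.1 (show ((2 ^ (2 * n) : ℕ) : ℝ≥0∞) < ev S ω by
    rw [e]; exact ENNReal.natCast_lt_top _)
  exact hn p.1 (fun x hx => lt_ev.2 ⟨p, a, hx, c⟩) b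

theorem finE {tE tP : (ℕ → Bool) → ℝ≥0∞} (hE : ETest tE) (hP : Universal PTest tP)
    (ω : ℕ → Bool) (hω : tP ω ≠ ⊤) : tE ω ≠ ⊤ := by
  obtain ⟨⟨S, hS, rfl⟩, h1⟩ := hE
  obtain ⟨M, hM⟩ := ENNReal.exists_nat_gt h1.ne
  have hM0 : (M : ℝ≥0∞) ≠ 0 := (zero_le.trans_lt hM).ne'
  have e : ev (fun p => ∃ b, S (p.1, p.2.1, b) ∧ (p.2.2 + 1 == M * (b + 1)) = true) =
      fun ω => ev S ω / M := by
    have k : ∀ a b : ℕ, (a : ℝ≥0∞) / (M * (b + 1)) = a / (b + 1) / M := fun a b => by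
      rw [div_eq_mul_inv, div_eq_mul_inv, div_eq_mul_inv,
        ENNReal.mul_inv (Or.inl hM0) (Or.inl (by simp)), mul_comm (M : ℝ≥0∞)⁻¹, mul_assoc]
    refine funext fun x => le_antisymm (iSup₂_le ?_) ?_
    · rintro ⟨σ, a, b'⟩ ⟨⟨b, h2, h3⟩, h4⟩
      have h5 : (b' : ℝ≥0∞) + 1 = M * (b + 1) := by exact_mod_cast (beq_iff_eq.1 h3)
      simp only [h5, k]
      exact ENNReal.div_le_div_right (le_ev h2 h4) _
    · simp only [ev, ENNReal.iSup_div]
      refine iSup₂_le ?_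
      rintro ⟨σ, a, b⟩ ⟨h2, h3⟩
      have h4 : M * (b + 1) - 1 + 1 = M * (b + 1) :=
        Nat.sub_add_cancel (Nat.mul_pos (Nat.pos_of_ne_zero (by simpa using hM0)) (by omega))
      have h5 : ((M * (b + 1) - 1 : ℕ) : ℝ≥0∞) + 1 = M * (b + 1) := by exact_mod_cast h4
      refine le_iSup₂_of_le (σ, a, M * (b + 1) - 1) ⟨⟨b, h2, by simp [h4]⟩, h3⟩ ?_
      simp only [h5, k, le_refl]
  obtain ⟨C, hC⟩ := hP.2 (fun ω => ev S ω / M) ⟨⟨_, by
    apply re_ex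
    exact re_and (re_comp' hS _ (by fun_prop)) (re_prim (by fun_prop)), e.symm⟩, fun c hc => by
      refine (meas_ge_le_lintegral_div ((meas_ev S).div_const _).aemeasurable
        (by simpa using hc.ne') (by simp)).trans ?_
      rw [← one_div]
      refine ENNReal.div_le_div_right ?_ _
      simp only [div_eq_mul_inv]
      rw [lintegral_mul_const _ (meas_ev S), ← div_eq_mul_inv]
      exact ENNReal.div_le_of_le_mul (by simpa using hM.le)⟩
  intro h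
  have := hC ω
  simp only [h, ENNReal.top_div_of_ne_top (ENNReal.natCast_ne_top M), top_le_iff] at this
  exact ENNReal.mul_ne_top (ENNReal.natCast_ne_top C) hω this

theorem zeros {tP : (ℕ → Bool) → ℝ≥0∞} (hP : Universal PTest tP) :
    ∃ C : ℕ, ∀ k, ∀ ω ∈ cyl (bits (2 ^ k) (k + 1)), ((2 ^ k : ℕ) : ℝ≥0∞) ≤ C * tP ω := by
  refine (hP.2 (ev fun p => ∃ k, (p == (bits (2 ^ k) (k + 1), 2 ^ k, 0)) = true)
    ⟨⟨_, by apply re_ex; exact re_prim (by unfold bits; fun_prop), rfl⟩, fun c hc => ?_⟩).elim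
      fun C hC => ?_
  swap
  · exact ⟨C, fun k ω h => le_trans (by simp)
      ((le_ev (a := 2 ^ k) (b := 0) ⟨k, by simp⟩ h).trans (hC ω))⟩
  have hex : ∃ k : ℕ, c ≤ 2 ^ k := (pow_unbounded_of_one_lt c one_lt_two).imp fun _ h => h.le
  refine (measure_mono (t := cyl (bits 0 (Nat.find hex))) fun ω h => ?_).trans ?_
  · by_contra hn
    obtain ⟨k, hk⟩ : ∃ k, Nat.find hex = k + 1 :=
      Nat.exists_eq_succ_of_ne_zero fun e => hn (by rw [e]; exact mem_bits.2 (by simp))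
    have h1 := not_le.1 (Nat.find_min hex (show k < _ by omega))
    have h2 : ((2 ^ k : ℕ) : ℝ≥0∞) < c := by exact_mod_cast h1
    obtain ⟨p, ⟨j, a⟩, b, d⟩ := lt_ev.1 (h2.trans_le h)
    obtain rfl := beq_iff_eq.1 a
    have h3 := (lt_frac _ _ _).1 d
    have h4 : k < j := (Nat.pow_lt_pow_iff_right (show 1 < 2 by omega)).1 (by simpa using h3)
    refine hn (mem_bits.2 fun i hi => (mem_bits.1 b i (by omega)).trans ?_)
    simp only [Nat.testBit_two_pow, Nat.zero_testBit, decide_eq_false_iff_not]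
    omega
  · rw [P_cyl, bits_length, ← ENNReal.inv_pow]
    exact ENNReal.inv_le_inv.2 (by exact_mod_cast Nat.find_spec hex)

abbrev St : Type := ℕ × ℕ × ℕ × ℕ

section
variable (c d : ℕ) (CE CP : ℕ → List Bool × ℕ → Bool)

def ell (i : ℕ) : ℕ := 2 * i + c + 2
def JJ (i : ℕ) : ℕ := 2 * 2 ^ (d + ell c i) + d + c + 2 * i + 1
def WW (i : ℕ) (s : St) : List Bool := bits s.2.2.1 (JJ c d i + s.1 + ell c i)
def VV (k : ℕ) : List Bool := bits (2 ^ k) (k + 1)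

def step (i n : ℕ) (s : St) : St :=
  bif CE n (VV (JJ c d i + s.1), 2 ^ s.2.1) then
    (bif Nat.ble s.1 s.2.1 && Nat.ble s.2.2.2 (2 ^ s.2.1) then (s.1 + 1, 0, 0, 0)
      else (s.1, s.2.1 + 1, s.2.2.1, s.2.2.2))
  else bif CP n (WW c d i s, 2 ^ (JJ c d i + s.1 - d)) then
    (s.1, s.2.1, s.2.2.1 + 1, s.2.2.2 + 2 ^ s.2.1) else s

def st (i n : ℕ) : St := Nat.rec (0, 0, 0, 0) (fun n s => step c d CE CP i n s) n

theorem st_succ (i n : ℕ) : st c d CE CP i (n + 1) = step c d CE CP i n (st c d CE CP i n) := rfl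

noncomputable def emit (i : ℕ) (s : St) : (ℕ → Bool) → ℝ≥0∞ :=
  (cyl (WW c d i s)).indicator fun _ => ((2 ^ (i + c + s.2.1) : ℕ) : ℝ≥0∞)

theorem meas_emit (i : ℕ) (s : St) : Measurable (emit c d i s) :=
  measurable_const.indicator (meas_cyl _)

theorem int_emit (i : ℕ) (s : St) : ∫⁻ ω, emit c d i s ω ∂P =
    ((2 ^ (i + c + s.2.1) : ℕ) : ℝ≥0∞) * 2⁻¹ ^ (JJ c d i + s.1 + ell c i) := by
  unfold emit
  rw [lintegral_indicator_const (meas_cyl _), P_cyl, WW, bits_length]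

structure Inv (tE tP : (ℕ → Bool) → ℝ≥0∞) (i : ℕ) (s : St) (F : (ℕ → Bool) → ℝ≥0∞) : Prop where
  a : ∀ t < s.2.2.1, ∀ ω ∈ cyl (bits t (JJ c d i + s.1 + ell c i)),
    ((2 ^ (JJ c d i + s.1 - d) : ℕ) : ℝ≥0∞) < tP ω
  t : s.2.2.1 ≤ 2 ^ (d + ell c i)
  b : (s.2.1 - s.1) * 2 ^ s.2.1 + 2 * s.2.2.2 ≤ 2 * s.2.2.1 * 2 ^ s.2.1
  e : ∃ G H : (ℕ → Bool) → ℝ≥0∞, Measurable G ∧ Measurable H ∧ (∀ ω, H ω ≤ tE ω) ∧
    (∀ ω ∈ cyl (bits 0 (JJ c d i + s.1)), H ω = 0) ∧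
    (s.1 : ℝ≥0∞) * 2⁻¹ ^ (JJ c d i + 1) ≤ ∫⁻ ω, H ω ∂P ∧
    ∫⁻ ω, G ω ∂P ≤ 2⁻¹ ^ i * ∫⁻ ω, H ω ∂P +
      ((s.2.2.2 * 2 ^ (i + c) : ℕ) : ℝ≥0∞) * 2⁻¹ ^ (JJ c d i + s.1 + ell c i) ∧
    ∀ ω, F ω ≤ G ω + emit c d i s ω

variable {c d CE CP} {tE tP : (ℕ → Bool) → ℝ≥0∞}

theorem Inv.q {i : ℕ} {s : St} {F : (ℕ → Bool) → ℝ≥0∞} (h : Inv c d tE tP i s F) :
    s.2.1 ≤ s.1 + 2 * 2 ^ (d + ell c i) ∧ s.2.2.2 ≤ 2 ^ (d + ell c i) * 2 ^ s.2.1 := by
  have h1 := h.b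
  have h2 := Nat.mul_le_mul_right (2 ^ s.2.1) h.t
  have h3 : s.2.1 - s.1 ≤ 2 * s.2.2.1 :=
    Nat.le_of_mul_le_mul_right (c := 2 ^ s.2.1) (by omega) (by positivity)
  have h4 := h.t
  rw [mul_assoc] at h1
  omega

theorem Inv.step (hP : PTest tP)
    (hCE : ∀ n p, CE n p = true → ∀ ω ∈ cyl p.1, (p.2 : ℝ≥0∞) < tE ω)
    (hCP : ∀ n p, CP n p = true → ∀ ω ∈ cyl p.1, (p.2 : ℝ≥0∞) < tP ω)
    {i : ℕ} {s : St} {F : (ℕ → Bool) → ℝ≥0∞} (h : Inv c d tE tP i s F) (n : ℕ) :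
    Inv c d tE tP i (step c d CE CP i n s)
      fun ω => max (F ω) (emit c d i (step c d CE CP i n s) ω) := by
  obtain ⟨g, q, t, u⟩ := s
  obtain ⟨G, H, h1, h2, h3, h4, h5, h6, h7⟩ := h.e
  have ha := h.a
  have hb := h.b
  have ht := h.t
  simp only at ha hb ht h4 h5 h6
  have hint : ∫⁻ ω, G ω + emit c d i (g, q, t, u) ω ∂P ≤ 2⁻¹ ^ i * ∫⁻ ω, H ω ∂P +
      (((u + 2 ^ q) * 2 ^ (i + c) : ℕ) : ℝ≥0∞) * 2⁻¹ ^ (JJ c d i + g + ell c i) := by
    rw [lintegral_add_left h1, int_emit]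
    refine (add_le_add_left h6 _).trans (le_of_eq ?_)
    push_cast
    ring
  unfold OppositeOrder.step
  cases e1 : CE n (VV (JJ c d i + g), 2 ^ q)
  · cases e2 : CP n (WW c d i (g, q, t, u), 2 ^ (JJ c d i + g - d))
    · exact ⟨ha, ht, hb, G, H, h1, h2, h3, h4, h5, h6, fun ω => max_le (h7 ω) le_add_self⟩
    · have ha' : ∀ t' < t + 1, ∀ ω ∈ cyl (bits t' (JJ c d i + g + ell c i)),
          ((2 ^ (JJ c d i + g - d) : ℕ) : ℝ≥0∞) < tP ω := fun t' ht' => by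
        rcases Nat.lt_succ_iff_lt_or_eq.1 ht' with h | rfl
        · exact ha t' h
        · exact hCP _ _ e2
      have hJ : d + 1 ≤ JJ c d i + g := by unfold JJ; omega
      refine ⟨ha', ?_, by simp only [cond_false, cond_true]; nlinarith, _, H, h1.add (meas_emit _ _ _ _),
        h2, h3, h4, h5, hint, fun ω => max_le ((h7 ω).trans le_self_add) le_add_self⟩
      have k1 : t + 1 ≤ 2 ^ (JJ c d i + g + ell c i) :=
        Nat.succ_le_of_lt (ht.trans_lt (Nat.pow_lt_pow_right (by omega) (by omega)))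
      have k2 := (count_le (X := {ω | ((2 ^ (JJ c d i + g - d) : ℝ≥0) : ℝ≥0∞) ≤ tP ω}) k1
        fun s hs ω hω => by simpa using (ha' s hs ω hω).le).trans (hP.2 _ (by positivity))
      by_contra k3
      have k4 := frac (N := 2 ^ (d + ell c i) + 1) (N' := t + 1) (a := 0) (b := 0)
        (by simp only [cond_false, cond_true] at k3; omega)
      have k5 : ((2 ^ (d + ell c i) : ℕ) : ℝ≥0∞) * 2⁻¹ ^ (JJ c d i + g + ell c i) =
          2⁻¹ ^ (JJ c d i + g - d) := le_antisymm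
        ((frac (N' := 1) (a := JJ c d i + g - d)
          (by rw [← pow_add, one_mul]; exact le_of_eq (by congr 1; omega))).trans
          (by simp)) (le_trans (by simp) (frac (N := 1) (b := JJ c d i + g - d)
            (by rw [← pow_add, one_mul]; exact le_of_eq (by congr 1; omega))))
      simp only [pow_zero, mul_one] at k4
      have k6 := (mul_le_mul_left k4 _).trans k2
      rw [Nat.cast_add, add_mul, k5, ENNReal.coe_pow, ENNReal.inv_pow] at k6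
      have k7 : (2 : ℝ≥0∞)⁻¹ ^ (JJ c d i + g - d) ≠ ⊤ := ENNReal.pow_ne_top (by simp)
      exact absurd k6 (not_le.2 (ENNReal.lt_add_right k7 (by simp)))
  · cases e2 : (Nat.ble g q && Nat.ble u (2 ^ q))
    · refine ⟨ha, ht, ?_, G, H, h1, h2, h3, h4, h5, h6, fun ω => max_le ((h7 ω).trans ?_) le_add_self⟩
      · simp only [cond_false, cond_true]
        replace e2 : q < g ∨ 2 ^ q < u := by
          by_contra k
          push Not at k
          exact Bool.false_ne_true (e2.symm.trans (by simpa only [Bool.and_eq_true, Nat.ble_eq]))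
        rw [pow_succ]
        rcases le_or_gt g q with k | k
        · have := e2.resolve_left (not_lt.2 k)
          rw [show q + 1 - g = q - g + 1 by omega]
          nlinarith
        · rw [show q + 1 - g = 0 by omega]
          nlinarith [Nat.zero_le ((q - g) * 2 ^ q)]
      · refine add_le_add_right (Set.indicator_le_indicator ?_) _
        exact_mod_cast Nat.pow_le_pow_right (by omega) (by simp)
    · simp only [Bool.and_eq_true, Nat.ble_eq] at e2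
      have hV : ∫⁻ ω, H ω + (cyl (VV (JJ c d i + g))).indicator
          (fun _ => ((2 ^ q : ℕ) : ℝ≥0∞)) ω ∂P =
          ∫⁻ ω, H ω ∂P + ((2 ^ q : ℕ) : ℝ≥0∞) * 2⁻¹ ^ (JJ c d i + g + 1) := by
        rw [lintegral_add_left h2, lintegral_indicator_const (meas_cyl _), P_cyl, VV, bits_length]
      simp only [cond_true]
      refine ⟨by simp, by simp, by simp, fun ω => G ω + emit c d i (g, q, t, u) ω,
        fun ω => H ω + (cyl (VV (JJ c d i + g))).indicator (fun _ => ((2 ^ q : ℕ) : ℝ≥0∞)) ω,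
        h1.add (meas_emit _ _ _ _),
        h2.add (measurable_const.indicator (meas_cyl _)), fun ω => ?_, fun ω hω => ?_, ?_,
        hint.trans ?_, fun ω => max_le ((h7 ω).trans le_self_add) le_add_self⟩
      rotate_left 2
      · rw [hV]
        simp only [Nat.cast_add, add_mul]
        refine add_le_add h5 (frac ?_)
        rw [← pow_add, one_mul]
        exact Nat.pow_le_pow_right (by omega) (by omega)
      · rw [hV, mul_add]
        refine le_trans (add_le_add_right ?_ _) le_self_add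
        rw [mul_left_comm, ← pow_add]
        refine frac ?_
        calc _ ≤ 2 ^ (q + 1) * 2 ^ (i + c) * 2 ^ (i + (JJ c d i + g + 1)) := by
              gcongr; omega
          _ = _ := by simp only [← pow_add, ell]; congr 1; omega
      · beta_reduce
        by_cases hω : ω ∈ cyl (VV (JJ c d i + g))
        · rw [h4 ω (mem_bits.2 fun j hj => (mem_bits.1 hω j (by omega)).trans
            (by simp [Nat.testBit_two_pow]; omega)), Set.indicator_of_mem hω, zero_add]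
          exact (hCE _ _ e1 ω hω).le
        · simpa [hω] using h3 ω
      · have k1 := mem_bits.1 hω
        simp only at k1 ⊢
        rw [h4 ω (mem_bits.2 fun j hj => k1 j (by omega)), zero_add, Set.indicator_of_notMem]
        intro k2
        have := (k1 (JJ c d i + g) (by omega)).symm.trans (mem_bits.1 k2 _ (by omega))
        simp at this

noncomputable def FF (c d : ℕ) (CE CP : ℕ → List Bool × ℕ → Bool) (i n : ℕ) :
    (ℕ → Bool) → ℝ≥0∞ :=
  Nat.rec (emit c d i (0, 0, 0, 0))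
    (fun n F ω => max (F ω) (emit c d i (st c d CE CP i (n + 1)) ω)) n

theorem inv_all (hP : PTest tP)
    (hCE : ∀ n p, CE n p = true → ∀ ω ∈ cyl p.1, (p.2 : ℝ≥0∞) < tE ω)
    (hCP : ∀ n p, CP n p = true → ∀ ω ∈ cyl p.1, (p.2 : ℝ≥0∞) < tP ω) (i n : ℕ) :
    Inv c d tE tP i (st c d CE CP i n) (FF c d CE CP i n) := by
  induction n with
  | zero => exact ⟨by simp [st], by simp [st], by simp [st], 0, 0, measurable_zero, measurable_zero,
      by simp, by simp, by simp [st], by simp, by simp [FF, st]⟩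
  | succ n ih => exact ih.step hP hCE hCP n

theorem Inv.int {i : ℕ} {s : St} {F : (ℕ → Bool) → ℝ≥0∞} (h : Inv c d tE tP i s F) :
    ∫⁻ ω, F ω ∂P ≤ 2⁻¹ ^ i * (∫⁻ ω, tE ω ∂P + 1) ∧
      (s.1 : ℝ≥0∞) * 2⁻¹ ^ (JJ c d i + 1) ≤ ∫⁻ ω, tE ω ∂P := by
  obtain ⟨G, H, h1, h2, h3, h4, h5, h6, h7⟩ := h.e
  obtain ⟨k1, k2⟩ := h.q
  refine ⟨(lintegral_mono h7).trans ?_, h5.trans (lintegral_mono h3)⟩
  rw [lintegral_add_left h1, int_emit, mul_add]
  refine (add_le_add_left h6 _).trans ?_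
  rw [add_assoc, ← add_mul, ← Nat.cast_add]
  refine add_le_add (mul_le_mul_right (lintegral_mono h3) _) ((frac (N' := 1) (a := i) ?_).trans
    (by simp))
  have k3 : 1 ≤ 2 ^ (d + ell c i) := Nat.one_le_two_pow
  calc _ ≤ (2 ^ (d + ell c i) * 2 ^ s.2.1 * 2 ^ (i + c) +
        2 ^ (d + ell c i) * 2 ^ (i + c + s.2.1)) * 2 ^ i := by
        gcongr; exact Nat.le_mul_of_pos_left _ k3
    _ = 2 ^ (d + ell c i + s.2.1 + i + c + 1 + i) := by ring
    _ ≤ _ := by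
        rw [one_mul]
        exact Nat.pow_le_pow_right (by omega) (by unfold JJ; omega)

theorem prim_st (c d : ℕ) (pE : Primrec fun q : ℕ × List Bool × ℕ => CE q.1 q.2)
    (pP : Primrec fun q : ℕ × List Bool × ℕ => CP q.1 q.2) :
    Primrec fun q : ℕ × ℕ => st c d CE CP q.1 q.2 := by
  have e1 : Primrec fun q : ℕ × ℕ × St => step c d CE CP q.1 q.2.1 q.2.2 := by
    have a1 : Primrec fun q : ℕ × ℕ × St =>
        CE q.2.1 (VV (JJ c d q.1 + q.2.2.1), 2 ^ q.2.2.2.1) :=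
      Primrec₂.comp (f := CE) pE (by fun_prop) (by unfold VV JJ ell bits; fun_prop)
    have a2 : Primrec fun q : ℕ × ℕ × St =>
        CP q.2.1 (WW c d q.1 q.2.2, 2 ^ (JJ c d q.1 + q.2.2.1 - d)) :=
      Primrec₂.comp (f := CP) pP (by fun_prop) (by unfold WW JJ ell bits; fun_prop)
    unfold step
    exact PR.cond' a1 (by fun_prop) (PR.cond' a2 (by fun_prop) (by fun_prop))
  unfold st
  generalize step c d CE CP = f at e1
  exact PR.natRec' (h := fun q n s => f q.1 n s) Primrec.snd (Primrec.const _)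
    (e1.comp (show Primrec fun x : (ℕ × ℕ) × ℕ × St => (x.1.1, x.2.1, x.2.2) by fun_prop))

theorem test_ok (hE : ETest tE) (hP : PTest tP)
    (hCE : ∀ n p, CE n p = true → ∀ ω ∈ cyl p.1, (p.2 : ℝ≥0∞) < tE ω)
    (hCP : ∀ n p, CP n p = true → ∀ ω ∈ cyl p.1, (p.2 : ℝ≥0∞) < tP ω)
    (pE : Primrec fun q : ℕ × List Bool × ℕ => CE q.1 q.2)
    (pP : Primrec fun q : ℕ × List Bool × ℕ => CP q.1 q.2) :
    ETest (ev fun p => ∃ i n, (p == (WW c d i (st c d CE CP i n),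
      2 ^ (i + c + (st c d CE CP i n).2.1), 0)) = true) := by
  refine ⟨⟨_, ?_, rfl⟩, ?_⟩
  · have e2 := prim_st c d pE pP
    generalize st c d CE CP = f at e2
    apply re_ex
    apply re_ex
    have e3 : Primrec fun x : ((List Bool × ℕ × ℕ) × ℕ) × ℕ => f x.1.2 x.2 :=
      e2.comp (show Primrec fun x : ((List Bool × ℕ × ℕ) × ℕ) × ℕ => (x.1.2, x.2) by fun_prop)
    exact re_prim (by unfold WW JJ ell bits; fun_prop)
  have hm : ∀ i n, Measurable (FF c d CE CP i n) := fun i n => by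
    induction n with
    | zero => exact meas_emit _ _ _ _
    | succ n ih => exact ih.max (meas_emit _ _ _ _)
  calc _ ≤ ∫⁻ ω, ∑' i : ℕ, ⨆ n, FF c d CE CP i n ω ∂P := by
        refine lintegral_mono fun x => iSup₂_le ?_
        rintro p ⟨⟨i, n, h1⟩, h3⟩
        obtain rfl := beq_iff_eq.1 h1
        refine le_trans (le_iSup_of_le n ?_) (ENNReal.le_tsum i)
        refine le_trans (b := emit c d i (st c d CE CP i n) x) ?_ (by
          cases n
          · exact le_rfl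
          · exact le_max_right _ _)
        simp only [emit, Set.indicator_of_mem h3]
        simp
    _ = ∑' i : ℕ, ⨆ n, ∫⁻ ω, FF c d CE CP i n ω ∂P := by
        rw [lintegral_tsum fun i => (Measurable.iSup (hm i)).aemeasurable]
        exact tsum_congr fun i => lintegral_iSup (hm i)
          (monotone_nat_of_le_succ fun n ω => le_max_left _ _)
    _ ≤ ∑' i : ℕ, 2⁻¹ ^ i * (∫⁻ ω, tE ω ∂P + 1) := ENNReal.tsum_le_tsum fun i =>
        iSup_le fun n => (inv_all hP hCE hCP i n).int.1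
    _ < ⊤ := by
        rw [ENNReal.tsum_mul_right]
        exact ENNReal.mul_lt_top (by simp) (by simpa using hE.2)

theorem stuck (hE : ETest tE) (hP : PTest tP)
    (hCE : ∀ n p, CE n p = true → ∀ ω ∈ cyl p.1, (p.2 : ℝ≥0∞) < tE ω)
    (hCP : ∀ n p, CP n p = true → ∀ ω ∈ cyl p.1, (p.2 : ℝ≥0∞) < tP ω) (i : ℕ) :
    ∃ n s, st c d CE CP i n = s ∧ ∀ m, n ≤ m → CE m (VV (JJ c d i + s.1), 2 ^ s.2.1) = false ∧
      CP m (WW c d i s, 2 ^ (JJ c d i + s.1 - d)) = false := by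
  obtain ⟨M, hM⟩ := ENNReal.exists_nat_gt (ENNReal.div_ne_top hE.2.ne
    (show (2 : ℝ≥0∞)⁻¹ ^ (JJ c d i + 1) ≠ 0 by simp))
  obtain ⟨B, hB⟩ : ∃ B, B = M + 2 * 2 ^ (d + ell c i) + 1 := ⟨_, rfl⟩
  have hb : ∀ n, (st c d CE CP i n).1 < B ∧ (st c d CE CP i n).2.1 < B ∧
      (st c d CE CP i n).2.2.1 < B := fun n => by
    have h := inv_all (c := c) (d := d) hP hCE hCP i n
    have h1 : ((st c d CE CP i n).1 : ℝ≥0∞) < M := lt_of_le_of_lt
      ((ENNReal.le_div_iff_mul_le (Or.inl (by simp)) (Or.inl (by simp))).2 h.int.2) hM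
    have h2 : (st c d CE CP i n).1 < M := by exact_mod_cast h1
    have := h.q.1
    have := h.t
    omega
  let φ : St → ℕ := fun s => (s.1 * B + s.2.1) * B + s.2.2.1
  have hφ : BddAbove (Set.range fun n => φ (st c d CE CP i n)) := ⟨(B * B + B) * B + B, by
    rintro _ ⟨n, rfl⟩
    obtain ⟨a1, a2, a3⟩ := hb n
    simp only [φ]
    gcongr⟩
  obtain ⟨n, hn⟩ := Nat.sSup_mem (Set.range_nonempty _) hφ
  have key : ∀ m, st c d CE CP i m = st c d CE CP i n →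
      CE m (VV (JJ c d i + (st c d CE CP i n).1), 2 ^ (st c d CE CP i n).2.1) = false ∧
      CP m (WW c d i (st c d CE CP i n), 2 ^ (JJ c d i + (st c d CE CP i n).1 - d)) = false := by
    intro m hm
    have h1 : φ (st c d CE CP i (m + 1)) ≤ φ (st c d CE CP i n) := by
      rw [show φ (st c d CE CP i n) = _ from hn]
      exact le_csSup hφ ⟨m + 1, rfl⟩
    obtain ⟨a1, a2, a3⟩ := hb n
    rw [st_succ, hm] at h1
    generalize st c d CE CP i n = s at *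
    unfold step at h1
    cases e1 : CE m (VV (JJ c d i + s.1), 2 ^ s.2.1)
    · cases e2 : CP m (WW c d i s, 2 ^ (JJ c d i + s.1 - d))
      · exact ⟨rfl, rfl⟩
      · simp [e1, e2, φ] at h1
    · exfalso
      rw [e1] at h1
      cases e2 : (Nat.ble s.1 s.2.1 && Nat.ble s.2.2.2 (2 ^ s.2.1)) <;>
        simp only [e2, φ, cond_true, cond_false] at h1 <;> nlinarith
  refine ⟨n, _, rfl, fun m hm => key m ?_⟩
  induction m, hm using Nat.le_induction with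
  | base => rfl
  | succ m _ ih => rw [st_succ, ih, step, (key m ih).1, (key m ih).2]; rfl

end

theorem result (tE tP : (ℕ → Bool) → ℝ≥0∞) (hE : Universal ETest tE) (hP : Universal PTest tP)
    (c : ℝ) : ∃ ω₁ ω₂ : ℕ → Bool, MLRandom ω₁ ∧ MLRandom ω₂ ∧
      (∀ ω ∈ ({ω₁, ω₂} : Set (ℕ → Bool)), 0 < tE ω ∧ tE ω < ⊤ ∧ 0 < tP ω ∧ tP ω < ⊤) ∧
      dfc tE ω₂ + c ≤ dfc tE ω₁ ∧ dfc tP ω₁ + c ≤ dfc tP ω₂ := by
  obtain ⟨c, hc⟩ := exists_nat_ge c
  obtain ⟨CE, pE, mE, hCE⟩ := re_stage (cov_re hE.1.1)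
  obtain ⟨CP, pP, mP, hCP⟩ := re_stage (cov_re hP.1.1)
  have hCE' := fun n p h => (hCE p).2 ⟨n, h⟩
  have hCP' := fun n p h => (hCP p).2 ⟨n, h⟩
  obtain ⟨D, hD⟩ := zeros hP
  obtain ⟨i, hi⟩ := hE.2 _ (test_ok (c := c) (d := D + c) hE.1 hP.1 hCE' hCP' pE pP)
  obtain ⟨n, s, hs, hn⟩ := stuck (c := c) (d := D + c) hE.1 hP.1 hCE' hCP' i
  have h1 : ¬ ∀ ω ∈ cyl (VV (JJ c (D + c) i + s.1)), ((2 ^ s.2.1 : ℕ) : ℝ≥0∞) < tE ω := fun h => by
    obtain ⟨m, hm⟩ := (hCE (_, _)).1 h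
    exact Bool.false_ne_true ((hn _ (le_max_left n m)).1.symm.trans
      (mE _ _ _ (le_max_right n m) hm))
  have h2 : ¬ ∀ ω ∈ cyl (WW c (D + c) i s),
      ((2 ^ (JJ c (D + c) i + s.1 - (D + c)) : ℕ) : ℝ≥0∞) < tP ω := fun h => by
    obtain ⟨m, hm⟩ := (hCP (_, _)).1 h
    exact Bool.false_ne_true ((hn _ (le_max_left n m)).2.symm.trans
      (mP _ _ _ (le_max_right n m) hm))
  push Not at h1 h2
  obtain ⟨y, y1, y2⟩ := h1
  obtain ⟨x, x1, x2⟩ := h2
  have canc : ∀ (C k : ℕ) (z : ℝ≥0∞), ((2 ^ (C + k) : ℕ) : ℝ≥0∞) ≤ C * z →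
      ((2 ^ k : ℕ) : ℝ≥0∞) ≤ z := fun C k z h => by
    have a : (C : ℝ≥0∞) ≤ ((2 ^ C : ℕ) : ℝ≥0∞) := by exact_mod_cast Nat.lt_two_pow_self.le
    rw [pow_add, Nat.cast_mul] at h
    exact (ENNReal.mul_le_mul_iff_right (by simp) (by simp)).1 (h.trans (mul_le_mul_left a _))
  have h3 : ((2 ^ c : ℕ) : ℝ≥0∞) * tE y ≤ tE x := by
    have := (le_ev (b := 0) ⟨i, n, beq_iff_eq.2 rfl⟩ (hs ▸ x1)).trans (hi x)
    rw [hs, add_assoc, Nat.cast_zero, zero_add, div_one] at this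
    refine le_trans ?_ (canc _ _ _ this)
    rw [pow_add, Nat.cast_mul]
    exact mul_le_mul_right y2 _
  have h4 : ((2 ^ c : ℕ) : ℝ≥0∞) * tP x ≤ tP y := by
    have := hD _ y y1
    rw [show JJ c (D + c) i + s.1 = D + (c + (JJ c (D + c) i + s.1 - (D + c))) by
      unfold JJ; omega] at this
    refine le_trans ?_ (canc _ _ _ this)
    rw [pow_add, Nat.cast_mul]
    exact mul_le_mul_right x2 _
  have x3 : tP x ≠ ⊤ := ne_top_of_le_ne_top (by simp) x2
  have y3 : tE y ≠ ⊤ := ne_top_of_le_ne_top (by simp) y2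
  have x4 := finE hE.1 hP x x3
  have y4 := finP hE hP.1 y y3
  have one : LSC fun _ => 1 := ⟨fun p => (p == ([], 1, 0)) = true, re_prim (by fun_prop),
    funext fun ω => le_antisymm (le_trans (by simp) (le_ev (σ := []) (a := 1) (b := 0) (by simp)
      (by simp [cyl]))) (iSup₂_le fun p h => by rw [beq_iff_eq.1 h.1]; simp)⟩
  have pos : ∀ T t, Universal T t → T (fun _ => 1) → ∀ ω, 0 < t ω := fun T t h h' ω => by
    obtain ⟨C, hC⟩ := h.2 _ h'
    exact pos_iff_ne_zero.2 fun e => by simpa [e] using hC ω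
  have pE := pos _ _ hE ⟨one, by simp⟩
  have pP := pos _ _ hP ⟨one, fun c _ => by
    by_cases h : (c : ℝ≥0∞) ≤ 1
    · simp [h]
    · simp [h]⟩
  have lg : ∀ a b : ℝ≥0∞, 0 < a → b ≠ ⊤ → ((2 ^ c : ℕ) : ℝ≥0∞) * a ≤ b →
      Real.logb 2 a.toReal + c ≤ Real.logb 2 b.toReal := fun a b ha hb h => by
    have k1 := ENNReal.toReal_mono hb h
    have k2 : 0 < a.toReal := ENNReal.toReal_pos ha.ne' fun e => hb (by simpa [e] using h)
    rw [ENNReal.toReal_mul, ENNReal.toReal_natCast, Nat.cast_pow] at k1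
    have k3 := Real.logb_le_logb_of_le (show (1 : ℝ) < 2 by norm_num) (by positivity) k1
    rw [Real.logb_mul (by positivity) k2.ne', Real.logb_pow] at k3
    simpa [add_comm] using k3
  refine ⟨x, y, random_of hE x x4, random_of hE y y3, ?_, ?_, ?_⟩
  · rintro ω (rfl | rfl)
    · exact ⟨pE _, x4.lt_top, pP _, x3.lt_top⟩
    · exact ⟨pE _, y3.lt_top, pP _, y4.lt_top⟩
  · exact le_trans (add_le_add_right hc _) (lg _ _ (pE y) x4 h3)
  · exact le_trans (add_le_add_right hc _) (lg _ _ (pP x) y4 h4)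

end Pool.Agent.Results.MP_2976e9_lc.OppositeOrder
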